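import Pool.Agent.Lib.MP_2ab38c_co.Main2

/-!
# MP_2ab38c_co : the exact threshold `r_1(k)` for all `k ≥ 4`

All definitions used in the statement are in `Pool/Agent/Lib/MP_2ab38c_co/Defs.lean`.
-/

namespace Pool.Agent.Results.MP_2ab38c_co.ExactAllK

open MP2ab38c

/-- For every `k ≥ 4`, with `palThr k` the least `r ≥ 1` such that `r^(l(k-2)) ≤ p^(k-1)` for some
even `l ≥ k`, where `p` is the product of the sizes of `l-1` nearly equal palettes of `r` colours:
`r_1(k) = palThr k`; `r_1(P) = palThr k` for the cherry pattern `P`; `r_1(P) ≤ palThr k` for every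
pattern `P` of `K_k` other than the rainbow pattern; and `thr k ≤ palThr k ≤ thr k + 1`, with
`thr k` the least `N` such that `(l-1)^((k-1)(l-1)) ≤ N^(l-k+1)` for some even `l ≥ k`.
Moreover the values of `r_1(k)` for `4 ≤ k ≤ 10`. -/
theorem result :
    (∀ k : ℕ, 4 ≤ k →
      IsMaxThreshold k (palThr k) ∧
      (∀ P : Pattern k, IsCherry P → IsThreshold P (palThr k)) ∧
      (∀ P : Pattern k, P ≠ ⊥ → ∃ ρ, IsThreshold P ρ ∧ ρ ≤ palThr k) ∧
      thr k ≤ palThr k ∧ palThr k ≤ thr k + 1) ∧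
    IsMaxThreshold 4 3125 ∧ IsMaxThreshold 5 531441 ∧ IsMaxThreshold 6 104424894 ∧
    IsMaxThreshold 7 25850976094 ∧ IsMaxThreshold 8 7512132470576 ∧
    IsMaxThreshold 9 2574764442874189 ∧ IsMaxThreshold 10 1016908473161732417 :=
  main_result2

end Pool.Agent.Results.MP_2ab38c_co.ExactAllK
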